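import Pool.Agent.Helper47.THA.Zfd

/-! [ZFU] for THEOREM A: flat untilted coordinates under a zoom. -/

set_option autoImplicit false
set_option linter.unusedVariables false

namespace Pool.Agent.Helper47.THA

open Finset Filter Topology Pool.Agent.Helper69.RK Pool.Agent.Helper31.EC Pool.Agent.Helper31.EC.Sp
open Pool.Agent.Helper31.EC.QS Pool.Agent.Helper57.TA Pool.Agent.Helper13.AM Pool.Agent.Helper57.THA
open Pool.Agent.Helper79.HLD Pool.Agent.Helper21.DO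
open Pool.Agent.Helper79.WLK (sh sh_eval map_sh sh_PK)
open Pool.Agent.Helper79.LBR (WS part coeff_part)
open Pool.Agent.Helper46.THA (Ph_supported Ph_PK eval_Ph h0_rename h0_sub emb st_UNIQ)
open Pool.Agent.Helper92.WK (K_zoom)

noncomputable section

theorem eval_map_hom {A B : Type*} [CommRing A] [CommRing B] {σ : Type*} (φ : A →+* B) (x : σ → A)
    (P : MvPolynomial σ A) :
    MvPolynomial.eval (fun a => φ (x a)) (MvPolynomial.map φ P) = φ (MvPolynomial.eval x P) := by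
  induction P using MvPolynomial.induction_on with
  | C a => rw [MvPolynomial.map_C, MvPolynomial.eval_C, MvPolynomial.eval_C]
  | add p q hp hq => rw [map_add, map_add, map_add, map_add, hp, hq]
  | mul_X p a hp => rw [map_mul, map_mul, map_mul, map_mul, hp, MvPolynomial.map_X, MvPolynomial.eval_X,
      MvPolynomial.eval_X]

theorem pe_hom {S T : Sp} (φ : QS S →+* QS T) {k : ℕ} (g : Fin (k + 1) → QS S) (x : QS S) :
    pe (fun a => φ (g a)) (φ x) = φ (pe g x) := by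
  unfold pe
  rw [map_sum]
  apply Finset.sum_congr rfl
  intro a _
  rw [map_mul, map_pow]

variable {S : Sp} {d N r : ℕ} {c : CD S d N r} {w : Fin N → ℝ} {z : Fin N} {ρ : ℝ} {H : HH S d N}
variable {y e : ℝ} {he : 0 < e} {h1 : e ≤ 1} {Z : ∀ k, Setoid (S.F k).Ω} {c' : CD (S.chg Z e he) d N r}

/-- one coordinate is untilted on the zoom -/
theorem unt_zoom (hA : c.Ax w z ρ) (hA' : c'.Ax w z ρ) (hz : c.ZR w z y e he h1 Z c') (hy : 0 ≤ y)
    (hye : w z * y + e ≤ 1) {s' : ℝ} (hs : 0 ≤ s') (hs1 : w z * s' < 1) {l : Fin N} {H' : HH (S.chg Z e he) d N}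
    {X : Fin (d + 1) → QS S} (hX' : ∀ a, c'.q a = cQ Z e he h1 (X a)) {G : QS S}
    (hG' : c'.cR H' l = cQ Z e he h1 G) {Θ : MvPolynomial (Fin (d + 1)) (QS S)} (hΘ : Θ ∈ PK (c.K (y + e * s')))
    (hΘe : G - MvPolynomial.eval X Θ ∈ Id S (w l * (e * s'))) {J' : MvPolynomial (Fin (d + 1)) (QS (S.chg Z e he))}
    (hJ' : ∀ n, n ≠ 0 → cQ Z e he h1 ((sh X Θ).coeff n) - J'.coeff n ∈ Id (S.chg Z e he) ((w l - w1 n) * s')) :
    UntE w c' H' J' s' l := by
  have hwl := hA.w0 l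
  have hws : w l * s' ≤ 1 := (mul_le_mul_of_nonneg_right (hA.wz l) hs).trans hs1.le
  have hys := (Pool.Agent.Helper92.THA.zs_lt (w := w) (z := z) he hye hs1).le
  have hK := K_zoom hA hA' hz hs hys
  have hq : (fun a => c'.q0 s' a + dq c' s' a) = fun a => cQ Z e he h1 (X a) := by
    funext a
    rw [← hX']
    show c'.q0 s' a + (c'.q a - c'.q0 s' a) = c'.q a
    ring
  have hΘ' : MvPolynomial.map (cQ Z e he h1) Θ ∈ PK (c'.K s') := by
    intro n
    rw [MvPolynomial.coeff_map, cQ_dg _ _ _ _ _ le_rfl, mul_one, hK]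
    exact chgL_mono _ _ _ ((dg_mono _ h1).trans (hΘ n))
  refine ⟨sh (c'.q0 s') (MvPolynomial.map (cQ Z e he h1) Θ), ?_, ?_, ?_⟩
  · exact sh_PK (fun a => q0_le hA'.bx s' a) hΘ'
  · rw [sh_eval, hq, eval_map_hom, hG', ← map_sub, cQ_mem _ _ _ _ hws]
    refine Id_mono (le_of_eq ?_) hΘe
    ring
  · intro n hn
    have h2 : sh (dq c' s') (sh (c'.q0 s') (MvPolynomial.map (cQ Z e he h1) Θ)) =
        MvPolynomial.map (cQ Z e he h1) (sh X Θ) := by
      rw [sh_sh, hq, map_sh]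
    rw [h2, MvPolynomial.coeff_map]
    exact hJ' n hn

/-- the new jets -/
theorem exists_J' (hA : c.Ax w z ρ) (hA' : c'.Ax w z ρ) (hz : c.ZR w z y e he h1 Z c') (hy : 0 ≤ y)
    (hye : w z * y + e ≤ 1) {s₁ : ℝ} (hs : 0 ≤ s₁) (hs1 : w z * s₁ < 1) {l : Fin N}
    {X : Fin (d + 1) → QS S} (hX' : ∀ a, c'.q a = cQ Z e he h1 (X a)) {J1 : MvPolynomial (Fin (d + 1)) (QS S)}
    (hJ1 : J1 ∈ PK (c.P ⊔ c.K y)) (hJw : ∀ m, J1.coeff m ≠ 0 → m ≠ 0 ∧ w1 m < w l)
    {Θ : MvPolynomial (Fin (d + 1)) (QS S)} (hΘ : Θ ∈ PK (c.K (y + e * s₁)))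
    (hΘJ : ∀ n, n ≠ 0 → (sh X Θ).coeff n - J1.coeff n ∈ Id S ((w l - w1 n) * (e * s₁))) :
    ∃ J' : MvPolynomial (Fin (d + 1)) (QS (S.chg Z e he)), J' ∈ PK (vd c'.q 1) ∧
      (∀ n, J'.coeff n ≠ 0 → n ≠ 0 ∧ w1 n < w l) ∧
      ∀ n, n ≠ 0 → cQ Z e he h1 (J1.coeff n) - J'.coeff n ∈ Id (S.chg Z e he) ((w l - w1 n) * s₁) := by
  classical
  have hwl := hA.w0 l
  have hy1 : w z * y ≤ 1 := by linarith
  have hws : w l * s₁ ≤ 1 := (mul_le_mul_of_nonneg_right (hA.wz l) hs).trans hs1.le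
  have hys := (Pool.Agent.Helper92.THA.zs_lt (w := w) (z := z) he hye hs1).le
  have hK := K_zoom hA hA' hz hs hys
  have hΘ' : MvPolynomial.map (cQ Z e he h1) Θ ∈ PK (c'.K s₁) := by
    intro n
    rw [MvPolynomial.coeff_map, cQ_dg _ _ _ _ _ le_rfl, mul_one, hK]
    exact chgL_mono _ _ _ ((dg_mono _ h1).trans (hΘ n))
  have hsh : MvPolynomial.map (cQ Z e he h1) (sh X Θ) ∈ PK c'.O := by
    rw [map_sh]
    apply sh_PK
    · intro a
      rw [← hX']
      exact (dg_le_vd c'.q 1 a).trans le_sup_left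
    · exact PK_mono (hA'.bx.K_le hs hs1.le) hΘ'
  have hμ0 : ∀ n : Fin (d + 1) →₀ ℕ, w1 n < w l → 0 ≤ (w l - w1 n) * s₁ := fun n hn => mul_nonneg (sub_nonneg.mpr hn.le) hs
  have hμ1 : ∀ n : Fin (d + 1) →₀ ℕ, (w l - w1 n) * s₁ ≤ 1 := fun n =>
    (mul_le_mul_of_nonneg_right (sub_le_self _ (w1_nonneg n)) hs).trans hws
  have key : ∀ n : Fin (d + 1) →₀ ℕ, n ≠ 0 → w1 n < w l →
      dg (cQ Z e he h1 (J1.coeff n)) ((w l - w1 n) * s₁) ≤ vd c'.q 1 := by
    intro n hn hn1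
    have h2 : dg (cQ Z e he h1 (J1.coeff n)) ((w l - w1 n) * s₁) ≤ chgL Z e he c.P ⊔ vd c'.q 1 := by
      refine le_trans ?_ le_sup_left
      refine (dg_mono _ (hμ1 n)).trans ?_
      rw [cQ_dg _ _ _ _ _ le_rfl, mul_one, ← chg_sup_K hA hA' hz hy1 c.P]
      exact chgL_mono _ _ _ ((dg_mono _ h1).trans (hJ1 n))
    have h3 : dg (cQ Z e he h1 (J1.coeff n)) ((w l - w1 n) * s₁) ≤ c'.O ⊔ vd c'.q 1 := by
      refine le_trans ?_ le_sup_left
      have h4 : cQ Z e he h1 ((sh X Θ).coeff n) - cQ Z e he h1 (J1.coeff n) ∈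
          Id (S.chg Z e he) ((w l - w1 n) * s₁) := by
        rw [← map_sub, cQ_mem _ _ _ _ (hμ1 n)]
        refine Id_mono (le_of_eq ?_) (hΘJ n hn)
        ring
      rw [← dg_eq_of_sub_mem h4 le_rfl (hμ1 n)]
      refine (dg_mono _ (hμ1 n)).trans ?_
      have h5 := hsh n
      rw [MvPolynomial.coeff_map] at h5
      exact h5
    exact le_of_markov h2 h3 (ind_P hA hA' hy hye hz)
  have hex : ∀ n : Fin (d + 1) →₀ ℕ, ∃ g : QS (S.chg Z e he), (J1.coeff n = 0 → g = 0) ∧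
      (J1.coeff n ≠ 0 → dg g 1 ≤ vd c'.q 1 ∧ cQ Z e he h1 (J1.coeff n) - g ∈
        Id (S.chg Z e he) ((w l - w1 n) * s₁)) := by
    intro n
    by_cases hn : J1.coeff n = 0
    · exact ⟨0, fun _ => rfl, fun h => absurd hn h⟩
    · obtain ⟨h2, h3⟩ := hJw n hn
      obtain ⟨g, hg, hg'⟩ := exists_round (cQ Z e he h1 (J1.coeff n)) (hμ0 n h3) (hμ1 n)
      exact ⟨g, fun h => absurd h hn, fun _ => ⟨hg.trans (key n h2 h3), hg'⟩⟩
  choose g hg0 hg1 using hex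
  obtain ⟨J', hJ'⟩ := exists_poly (MvPolynomial.map (cQ Z e he h1) J1)
    (fun n => if cQ Z e he h1 (J1.coeff n) = 0 then 0 else g n) (by
      intro m hm
      rw [MvPolynomial.coeff_map] at hm
      rw [if_pos hm])
  refine ⟨J', fun n => ?_, fun n hn => ?_, fun n hn => ?_⟩
  · rw [hJ']
    split_ifs with h2
    · exact (Kn _ 1 le_rfl _).zero_mem
    · exact (hg1 n fun h => h2 (by rw [h, map_zero])).1
  · rw [hJ'] at hn
    split_ifs at hn with h2
    · exact absurd rfl hn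
    · exact hJw n fun h => h2 (by rw [h, map_zero])
  · rw [hJ']
    split_ifs with h2
    · rw [h2, sub_zero]
      exact Ideal.zero_mem _
    · exact (hg1 n fun h => h2 (by rw [h, map_zero])).2

/-- **[ZFU]** -/
theorem st_ZFU : ST_ZFU := by
  classical
  intro d N r w z ρ C hC S c hc A κ s₀ H Jh hlow hκ1 hF y e he h1 hy0 hys hyκ hye Z c' hz hc'
  have hA := hC.ax S c hc
  have hA' := hC.ax _ c' hc'
  have hy : 0 ≤ y := hy0.le
  have hwz := hA.w0 z
  have hy1 : w z * y < 1 := hyκ.trans_le hκ1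
  choose X hX hX' using hz.q
  choose Y hY hY' using hz.R
  have hU : ∀ l ∈ A, UntF w c H (Jh l) y l := fun l hl =>
    st_UNIQ S d N r c w z ρ hA H hF.tri (Jh l) y l hy hy1 (hF.unt l hl y hy hys.le)
  -- the new coordinates
  have hex : ∀ l, ∃ Q : MvPolynomial (Fin (d + 1) ⊕ Fin N) (QS S), (∀ m, dg (Q.coeff m) 1 ≤ c.K y) ∧
      (∀ m, Q.coeff m ≠ 0 → ∀ l', m (Sum.inr l') ≠ 0 → w l' < w l) ∧
      (l ∈ A → gh c H y l = sc S (w l * y) * (Y l + MvPolynomial.eval (Sum.elim X Y) Q)) := by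
    intro l
    by_cases hl : l ∈ A
    · obtain ⟨Q, h2, h3, h4⟩ := gh_resc hA hF.tri hy hy1.le (hU l hl) hX hY
      exact ⟨Q, h2, h3, fun _ => h4⟩
    · refine ⟨0, fun m => ?_, fun m hm => ?_, fun h => absurd h hl⟩
      · rw [MvPolynomial.coeff_zero]
        exact (Kn S 1 le_rfl _).zero_mem
      · rw [MvPolynomial.coeff_zero] at hm
        exact absurd rfl hm
  choose Q hQk hQl hQg using hex
  obtain ⟨H', hH'⟩ : ∃ H' : HH (S.chg Z e he) d N, H' = fun l => -MvPolynomial.map (cQ Z e he h1) (Q l) := ⟨_, rfl⟩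
  obtain ⟨G, hGd⟩ : ∃ G : Fin N → QS S, G = fun l => Y l + MvPolynomial.eval (Sum.elim X Y) (Q l) := ⟨_, rfl⟩
  have hG : ∀ l ∈ A, gh c H y l = sc S (w l * y) * G l := by
    intro l hl
    rw [hGd]
    exact hQg l hl
  have hpt : c'.pt = fun a => cQ Z e he h1 (Sum.elim X Y a) := by
    funext a
    rcases a with a | a
    · exact hX' a
    · exact hY' a
  have hG' : ∀ l, c'.cR H' l = cQ Z e he h1 (G l) := by
    intro l
    unfold CD.cR
    rw [hH', hGd]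
    show c'.R l - MvPolynomial.eval c'.pt (-MvPolynomial.map _ (Q l)) = cQ Z e he h1 (Y l + _)
    rw [map_neg, hpt, eval_map_hom, map_add, hY', sub_neg_eq_add]
  have hTri : Tri w H' := by
    constructor
    · intro l m
      rw [hH']
      show dg ((-MvPolynomial.map (cQ Z e he h1) (Q l)).coeff m) 1 ≤ ⊥
      rw [MvPolynomial.coeff_neg, MvPolynomial.coeff_map]
      apply (Kn _ 1 le_rfl _).neg_mem
      show dg _ 1 ≤ _
      rw [cQ_dg _ _ _ _ _ le_rfl, mul_one, ← chgK_bot hA hA' hz hy1.le]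
      exact chgL_mono _ _ _ ((dg_mono _ h1).trans (hQk l m))
    · intro l m hm l' hl'
      rw [hH'] at hm
      change (-MvPolynomial.map (cQ Z e he h1) (Q l)).coeff m ≠ 0 at hm
      rw [MvPolynomial.coeff_neg, MvPolynomial.coeff_map, neg_ne_zero] at hm
      exact hQl l m (fun h => hm (by rw [h, map_zero])) l' hl'
  -- scales
  obtain ⟨s₁, hs₁⟩ : ∃ s₁, s₁ = min (s₀ - y) (1 / (2 * w z)) := ⟨_, rfl⟩
  have hs0 : 0 < s₁ := by
    rw [hs₁]
    exact lt_min (by linarith) (by positivity)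
  have hs1 : w z * s₁ < 1 := by
    have h2 : s₁ ≤ 1 / (2 * w z) := by
      rw [hs₁]
      exact min_le_right _ _
    have h3 := mul_le_mul_of_nonneg_left h2 hwz.le
    have h4 : w z * (1 / (2 * w z)) = 1 / 2 := by
      field_simp
    linarith
  have hsy : ∀ s', 0 ≤ s' → s' ≤ s₁ → y + e * s' ≤ s₀ := by
    intro s' h0 h2
    have h3 : s₁ ≤ s₀ - y := by
      rw [hs₁]
      exact min_le_left _ _
    have h4 : e * s' ≤ s' := mul_le_of_le_one_left h0 h1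
    linarith
  -- jets before rounding
  have hexJ : ∀ l, ∃ J1 : MvPolynomial (Fin (d + 1)) (QS S), l ∈ A → (∀ m, m ≠ 0 → w1 m < w l →
      sc S (w1 m * y) * ((Jh l).coeff m - (sh (dq c y) (h0 (Ph c H y l))).coeff m) =
        sc S (w l * y) * J1.coeff m) ∧
      J1 ∈ PK (c.P ⊔ c.K y) ∧ ∀ m, J1.coeff m ≠ 0 → m ≠ 0 ∧ w1 m < w l := by
    intro l
    by_cases hl : l ∈ A
    · obtain ⟨J1, h2⟩ := exists_J1 hA hF.tri hy hy1.le (hF.Jk l hl) (hU l hl)
      exact ⟨J1, fun _ => h2⟩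
    · exact ⟨0, fun h => absurd h hl⟩
  choose J1 hJ1 using hexJ
  have hΘ : ∀ l ∈ A, ∀ s', 0 ≤ s' → s' ≤ s₁ → ∃ Θ : MvPolynomial (Fin (d + 1)) (QS S),
      Θ ∈ PK (c.K (y + e * s')) ∧ G l - MvPolynomial.eval X Θ ∈ Id S (w l * (e * s')) ∧
      ∀ n, n ≠ 0 → (sh X Θ).coeff n - (J1 l).coeff n ∈ Id S ((w l - w1 n) * (e * s')) := by
    intro l hl s' h0 h2
    have hs1' : w z * s' < 1 := (mul_le_mul_of_nonneg_left h2 hwz.le).trans_lt hs1
    have h3 : 0 ≤ e * s' := mul_nonneg he.le h0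
    obtain ⟨Θ, h4, h5, h6⟩ := unt_resc hA hF.tri hy (by linarith : y ≤ y + e * s')
      (Pool.Agent.Helper92.THA.zs_lt (w := w) (z := z) he hye hs1').le (hU l hl)
      (hF.unt l hl _ (by linarith) (hsy s' h0 h2)) hX (hG l hl) (hJ1 l hl).1
    rw [add_sub_cancel_left] at h5
    refine ⟨Θ, h4, h5, fun n hn => ?_⟩
    have h7 := h6 n hn
    rwa [add_sub_cancel_left] at h7
  have hexJ' : ∀ l, ∃ J' : MvPolynomial (Fin (d + 1)) (QS (S.chg Z e he)), l ∈ A → J' ∈ PK (vd c'.q 1) ∧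
      (∀ n, J'.coeff n ≠ 0 → n ≠ 0 ∧ w1 n < w l) ∧
      ∀ n, n ≠ 0 → cQ Z e he h1 ((J1 l).coeff n) - J'.coeff n ∈ Id (S.chg Z e he) ((w l - w1 n) * s₁) := by
    intro l
    by_cases hl : l ∈ A
    · obtain ⟨Θ, h2, -, h4⟩ := hΘ l hl s₁ hs0.le le_rfl
      obtain ⟨J', h5⟩ := exists_J' hA hA' hz hy hye hs0.le hs1 hX' (hJ1 l hl).2.1 (hJ1 l hl).2.2 h2 h4
      exact ⟨J', fun _ => h5⟩
    · exact ⟨0, fun h => absurd h hl⟩
  choose Jh' hJh' using hexJ'
  refine ⟨min 1 (κ - w z * y), s₁, H', Jh', lt_min one_pos (by linarith), min_le_left _ _, hs0, hs1, ?_, ?_⟩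
  · refine ⟨hTri, ?_, fun l hl => (hJh' l hl).1, fun l hl => (hJh' l hl).2.1, ?_⟩
    · intro i l hl
      obtain ⟨k, f, hf1, hf2, hf3⟩ := hF.flat i l hl
      obtain ⟨n, g, hg1, hg2, hg3⟩ := flat_resc hA hF.tri hy hy1.le hκ1 hyκ.le hf1 hf2 hf3 hX he h1
        (X_real hA hA' hy hye hz i (hX' 0)) (hG l hl)
      refine ⟨n, fun a => cQ Z e he h1 (g a), fun a => ?_, ?_, ?_⟩
      · show dg (cQ Z e he h1 (g a.succ)) 1 ≤ chgL Z e he (c.b i)
        rw [cQ_dg _ _ _ _ _ le_rfl, mul_one, ← chg_sup_K hA hA' hz hy1.le (c.b i)]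
        exact chgL_mono _ _ _ ((dg_mono _ h1).trans (hg1 a))
      · show dg (cQ Z e he h1 (g 0)) 1 ≤ chgL Z e he (c.xi i)
        rw [cQ_dg _ _ _ _ _ le_rfl, mul_one, ← chg_sup_K hA hA' hz hy1.le (c.xi i)]
        exact chgL_mono _ _ _ ((dg_mono _ h1).trans hg2)
      · rw [hG', hX' 0, pe_hom, ← map_sub, cQ_mem _ _ _ _ (min_le_left _ _)]
        refine Id_mono ?_ hg3
        have h2 : 0 ≤ min 1 (κ - w z * y) := le_min zero_le_one (by linarith)
        have h3 : e * min 1 (κ - w z * y) ≤ min 1 (κ - w z * y) := mul_le_of_le_one_left h2 h1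
        have h4 : min 1 (κ - w z * y) ≤ κ - w z * y := min_le_right _ _
        have h5 : w l * y ≤ w z * y := mul_le_mul_of_nonneg_right (hA.wz l) hy
        linarith
    · intro l hl s' h0 h2
      obtain ⟨Θ, h3, h4, h5⟩ := hΘ l hl s' h0 h2
      have hs1' : w z * s' < 1 := (mul_le_mul_of_nonneg_left h2 hwz.le).trans_lt hs1
      refine unt_zoom hA hA' hz hy hye h0 hs1' hX' (hG' l) h3 h4 fun n hn => ?_
      rcases le_or_gt (w l) (w1 n) with h6 | h6
      · apply mem_Id_nonpos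
        exact mul_nonpos_of_nonpos_of_nonneg (sub_nonpos.mpr h6) h0
      · have hws : w l * s' ≤ 1 := (mul_le_mul_of_nonneg_right (hA.wz l) h0).trans hs1'.le
        have hμ1 : (w l - w1 n) * s' ≤ 1 :=
          (mul_le_mul_of_nonneg_right (sub_le_self _ (w1_nonneg n)) h0).trans hws
        have h7 : cQ Z e he h1 ((sh X Θ).coeff n) - cQ Z e he h1 ((J1 l).coeff n) ∈
            Id (S.chg Z e he) ((w l - w1 n) * s') := by
          rw [← map_sub, cQ_mem _ _ _ _ hμ1]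
          refine Id_mono (le_of_eq ?_) (h5 n hn)
          ring
        have h8 := Id_mono (mul_le_mul_of_nonneg_left h2 (sub_nonneg.mpr h6.le)) ((hJh' l hl).2.2 n hn)
        have h9 := (Id (S.chg Z e he) ((w l - w1 n) * s')).add_mem h7 h8
        rwa [sub_add_sub_cancel] at h9
  · intro l hl
    exact ⟨G l, hG l hl, hG' l⟩

end

end Pool.Agent.Helper47.THA
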