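import Pool.Agent.Helper57.THA.St
import Pool.Agent.Helper79.LBR.Ws

/-! [ZFU] for THEOREM A: rescaling of polynomials. -/

set_option autoImplicit false
set_option linter.unusedVariables false

namespace Pool.Agent.Helper47.THA

open Finset Filter Topology Pool.Agent.Helper69.RK Pool.Agent.Helper31.EC Pool.Agent.Helper31.EC.Sp
open Pool.Agent.Helper31.EC.QS Pool.Agent.Helper57.TA Pool.Agent.Helper13.AM Pool.Agent.Helper57.THA
open Pool.Agent.Helper79.WLK (sh sh_eval map_sh sh_PK)
open Pool.Agent.Helper79.LBR (WS)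

noncomputable section

variable {S : Sp} {σ τ : Type}

/-- a polynomial with given coefficients on the support of another one -/
theorem exists_poly {A : Type*} [CommRing A] (P : MvPolynomial σ A) (f : (σ →₀ ℕ) → A)
    (hf : ∀ m, P.coeff m = 0 → f m = 0) : ∃ Q : MvPolynomial σ A, ∀ m, Q.coeff m = f m := by
  classical
  refine ⟨∑ m ∈ P.support, MvPolynomial.monomial m (f m), fun m => ?_⟩
  rw [MvPolynomial.coeff_sum]
  simp only [MvPolynomial.coeff_monomial]
  rw [Finset.sum_ite_eq' P.support m]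
  split_ifs with hm
  · rfl
  · exact (hf m (MvPolynomial.notMem_support_iff.mp hm)).symm

theorem sc_pow {u : ℝ} (hu : 0 ≤ u) (n : ℕ) : sc S u ^ n = sc S (n * u) := by
  induction n with
  | zero => rw [pow_zero, Nat.cast_zero, zero_mul, sc_zero]
  | succ n ih =>
    rw [pow_succ, ih, ← sc_add (mul_nonneg (Nat.cast_nonneg n) hu) hu]
    congr 1
    push_cast
    ring

/-- one coefficient -/
theorem exists_psi {W lam y : ℝ} (hW : 0 ≤ W) (hy : 0 ≤ y) (hl : 0 ≤ lam) (hl1 : lam ≤ 1) {φ : QS S}
    (h : φ ∈ Id S (lam - W * y)) :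
    ∃ ψ : QS S, sc S (W * y) * φ = sc S lam * ψ ∧ dg ψ 1 ≤ dg φ 1 ∧ (φ = 0 → ψ = 0) := by
  classical
  by_cases h0 : φ = 0
  · refine ⟨0, ?_, ?_, fun _ => rfl⟩
    · rw [h0, mul_zero, mul_zero]
    · rw [h0]
  · have hWy := mul_nonneg hW hy
    rcases le_total (W * y) lam with h1 | h1
    · obtain ⟨ψ, hψ, hk⟩ := exists_div' (sub_nonneg.mpr h1) (by linarith) h
      refine ⟨ψ, ?_, hk, fun h2 => absurd h2 h0⟩
      rw [hψ, ← mul_assoc, ← sc_add hWy (sub_nonneg.mpr h1)]
      congr 2
      ring
    · refine ⟨sc S (W * y - lam) * φ, ?_, ?_, fun h2 => absurd h2 h0⟩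
      · rw [← mul_assoc, ← sc_add hl (sub_nonneg.mpr h1)]
        congr 2
        ring
      · refine (dg_mul_le _ _ le_rfl).trans (sup_le ?_ le_rfl)
        rw [dg_sc]
        exact bot_le

/-- RESCALING of a weighted small polynomial -/
theorem exists_resc [Fintype σ] {wt : σ → ℝ} (hwt : ∀ a, 0 ≤ wt a) {y lam : ℝ} (hy : 0 ≤ y) (hl : 0 ≤ lam)
    (hl1 : lam ≤ 1) {P : MvPolynomial σ (QS S)} (h : WS wt y lam P) :
    ∃ Q : MvPolynomial σ (QS S), (∀ m, sc S (wgt wt m * y) * P.coeff m = sc S lam * Q.coeff m) ∧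
      (∀ m, dg (Q.coeff m) 1 ≤ dg (P.coeff m) 1) ∧ (∀ m, P.coeff m = 0 → Q.coeff m = 0) ∧
      ∀ ξ : σ → QS S, MvPolynomial.eval (fun a => sc S (wt a * y) * ξ a) P = sc S lam * MvPolynomial.eval ξ Q := by
  classical
  choose ψ h1 h2 h3 using fun m => exists_psi (wgt_nonneg hwt m) hy hl hl1 (h m)
  obtain ⟨Q, hQ⟩ := exists_poly P ψ h3
  refine ⟨Q, fun m => ?_, fun m => ?_, fun m hm => ?_, fun ξ => ?_⟩
  · rw [hQ]
    exact h1 m
  · rw [hQ]
    exact h2 m
  · rw [hQ]
    exact h3 m hm
  · have hs : Q.support ⊆ P.support := by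
      intro m hm
      rw [MvPolynomial.mem_support_iff] at hm ⊢
      intro h4
      rw [hQ] at hm
      exact hm (h3 m h4)
    rw [MvPolynomial.eval_eq', MvPolynomial.eval_eq', Finset.sum_subset hs, Finset.mul_sum]
    · apply Finset.sum_congr rfl
      intro m _
      rw [mon_scale hwt hy, hQ, ← mul_assoc, ← mul_assoc, ← h1 m]
      ring
    · intro m _ hm
      rw [MvPolynomial.notMem_support_iff.mp hm, zero_mul]

/-- scaling of the variables -/
def scl (u : QS S) (P : MvPolynomial σ (QS S)) : MvPolynomial σ (QS S) :=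
  MvPolynomial.aeval (fun a => MvPolynomial.C u * MvPolynomial.X a) P

theorem coeff_scl [Fintype σ] {y : ℝ} (hy : 0 ≤ y) (P : MvPolynomial σ (QS S)) (m : σ →₀ ℕ) :
    (scl (sc S y) P).coeff m = sc S (wgt (fun _ => 1) m * y) * P.coeff m := by
  classical
  unfold scl
  induction P using MvPolynomial.induction_on' with
  | monomial n c =>
    rw [MvPolynomial.aeval_monomial, MvPolynomial.algebraMap_eq]
    have e1 : n.prod (fun a k => (MvPolynomial.C (sc S y) * MvPolynomial.X a : MvPolynomial σ (QS S)) ^ k) =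
        MvPolynomial.C (sc S (wgt (fun _ => 1) n * y)) * MvPolynomial.monomial n 1 := by
      rw [Finsupp.prod_fintype _ _ fun a => pow_zero _]
      simp only [mul_pow]
      rw [Finset.prod_mul_distrib]
      have e2 : ∏ a, (MvPolynomial.C (sc S y) : MvPolynomial σ (QS S)) ^ n a =
          MvPolynomial.C (sc S (wgt (fun _ => 1) n * y)) := by
        rw [← Finset.prod_congr rfl fun a _ => map_pow MvPolynomial.C (sc S y) (n a), ← map_prod]
        congr 1
        unfold wgt
        simp only [mul_one]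
        rw [Finset.sum_mul]
        induction (Finset.univ : Finset σ) using Finset.induction_on with
        | empty => rw [Finset.prod_empty, Finset.sum_empty, sc_zero]
        | insert a s ha ih =>
          rw [Finset.prod_insert ha, Finset.sum_insert ha, ih, sc_pow hy, sc_add (mul_nonneg (Nat.cast_nonneg _) hy)
            (Finset.sum_nonneg fun i _ => mul_nonneg (Nat.cast_nonneg _) hy)]
      rw [e2]
      congr 1
      rw [MvPolynomial.monomial_eq, map_one, one_mul, Finsupp.prod_fintype _ _ fun a => pow_zero _]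
    rw [e1, ← mul_assoc, ← map_mul, MvPolynomial.C_mul_monomial, mul_one, MvPolynomial.coeff_monomial,
      MvPolynomial.coeff_monomial]
    split_ifs with h
    · rw [h, mul_comm]
    · rw [mul_zero]
  | add p q hp hq => rw [map_add, MvPolynomial.coeff_add, MvPolynomial.coeff_add, hp, hq, mul_add]

theorem sh_sh {A : Type*} [CommRing A] {β : Type*} (x y : β → A) (P : MvPolynomial β A) :
    sh x (sh y P) = sh (fun a => y a + x a) P := by
  unfold sh
  induction P using MvPolynomial.induction_on with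
  | C a => rw [MvPolynomial.aeval_C, MvPolynomial.algebraMap_eq, MvPolynomial.aeval_C, MvPolynomial.aeval_C,
      MvPolynomial.algebraMap_eq]
  | add p q hp hq => rw [map_add, map_add, map_add, hp, hq]
  | mul_X p a hp =>
    rw [map_mul, map_mul, map_mul, hp, MvPolynomial.aeval_X, MvPolynomial.aeval_X, map_add, MvPolynomial.aeval_C,
      MvPolynomial.aeval_X, MvPolynomial.algebraMap_eq, map_add]
    ring

theorem sh_zero {A : Type*} [CommRing A] {β : Type*} (P : MvPolynomial β A) : sh (fun _ => 0) P = P := by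
  unfold sh
  simp

/-- coefficients in an ideal -/
theorem coeff_mem_aeval {A : Type*} [CommRing A] {β γ : Type*} (J : Ideal A) {P : MvPolynomial β A}
    (h : ∀ m, P.coeff m ∈ J) (φ : β → MvPolynomial γ A) (m : γ →₀ ℕ) : (MvPolynomial.aeval φ P).coeff m ∈ J := by
  classical
  rw [MvPolynomial.aeval_def, MvPolynomial.eval₂_eq, MvPolynomial.coeff_sum]
  apply J.sum_mem
  intro n _
  rw [MvPolynomial.algebraMap_eq, MvPolynomial.coeff_C_mul]
  exact J.mul_mem_right _ (h n)

end

end Pool.Agent.Helper47.THA
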