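import Pool.Agent.Helper92.THA.Conn
import Pool.Agent.Helper47.THA.Zfa

/-! [ZFU] for THEOREM A: facts on the zoom. -/

set_option autoImplicit false
set_option linter.unusedVariables false

namespace Pool.Agent.Helper47.THA

open Finset Filter Topology Pool.Agent.Helper69.RK Pool.Agent.Helper31.EC Pool.Agent.Helper31.EC.Sp
open Pool.Agent.Helper31.EC.QS Pool.Agent.Helper57.TA Pool.Agent.Helper13.AM Pool.Agent.Helper57.THA
open Pool.Agent.Helper79.HLD
open Pool.Agent.Helper92.WK (K_zoom)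

noncomputable section

variable {S : Sp} {d N r : ℕ} {c : CD S d N r} {w : Fin N → ℝ} {z : Fin N} {ρ : ℝ}
variable {y e : ℝ} {he : 0 < e} {h1 : e ≤ 1} {Z : ∀ k, Setoid (S.F k).Ω} {c' : CD (S.chg Z e he) d N r}

/-- the base box is trivial on the zoom -/
theorem chgK_bot (hA : c.Ax w z ρ) (hA' : c'.Ax w z ρ) (hz : c.ZR w z y e he h1 Z c') (hy1 : w z * y ≤ 1) :
    chgL Z e he (c.K y) = ⊥ := by
  have h2 := K_zoom hA hA' hz le_rfl (by rw [mul_zero, add_zero]; exact hy1)
  rw [mul_zero, add_zero, hA'.bx.K_zero] at h2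
  exact h2.symm

theorem chg_sup_K (hA : c.Ax w z ρ) (hA' : c'.Ax w z ρ) (hz : c.ZR w z y e he h1 Z c') (hy1 : w z * y ≤ 1) (x : S.L) :
    chgL Z e he (x ⊔ c.K y) = chgL Z e he x := by
  rw [chgL_sup, chgK_bot hA hA' hz hy1, sup_bot_eq]

/-- the deep digits of the base point are independent of the point of the zoom over its base point -/
theorem ind_P (hA : c.Ax w z ρ) (hA' : c'.Ax w z ρ) (hy : 0 ≤ y) (hye : w z * y + e ≤ 1)
    (hz : c.ZR w z y e he h1 Z c') : I (chgL Z e he c.P) c'.O c'.P = 0 := by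
  have hZ : Z = (hA.bx.bdd y).toInf.1 := funext hz.base
  subst hZ
  choose X hX hX' using hz.q
  choose Y hY hY' using hz.R
  have hs1 : w z * y ≤ 1 := by linarith
  have hK : cl (hA.bx.bdd y).toInf = c.K y := (io_eq _).symm
  have hq' : vd c'.q 1 = chgL _ e he (vd X e) := by
    have h2 := cQ_vd (hA.bx.bdd y).toInf.1 e he h1 X le_rfl
    rw [mul_one] at h2
    rw [← h2]
    exact Pool.Agent.Helper38.NS.vd_congr hX' 1
  have hR' : vd c'.R 1 = chgL _ e he (vd Y e) := by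
    have h2 := cQ_vd (hA.bx.bdd y).toInf.1 e he h1 Y le_rfl
    rw [mul_one] at h2
    rw [← h2]
    exact Pool.Agent.Helper38.NS.vd_congr hY' 1
  have hXK := X_le hA hy he hye hX
  have n1 : h (vd Y e) (vd X e ⊔ c.K y) = ((N : ℝ) - ρ) * e := by
    have h2 := h_R_P hA'
    have h3 : c'.P = vd c'.q 1 := rfl
    rw [h3, hq', hR', h_chgL_inf, hK] at h2
    rw [← h2, div_mul_cancel₀ _ he.ne']
  have n2 := h_Y hA hy he hye hY
  have hI1 : I c.P (vd Y e) (vd X e ⊔ c.K y) = 0 := by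
    apply le_antisymm _ (I_nonneg _ _ _)
    rw [I_eq', n1]
    have h2 : c.P ⊔ (vd X e ⊔ c.K y) ≤ c.K y ⊔ c.P := sup_le le_sup_right (sup_le hXK le_sup_left)
    have h3 := h_anti (A := vd Y e) h2
    linarith
  have hI4 : I (chgL (hA.bx.bdd y).toInf.1 e he c.P) (vd c'.R 1) (vd c'.q 1) = 0 := by
    rw [hq', hR', I_chgL_inf, hK, hI1, zero_div]
  refine I_zero_mono hI4 le_sup_left ?_
  exact sup_le le_sup_right le_sup_left

/-- the height in the box is real over the curve and the box -/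
theorem X_real (hA : c.Ax w z ρ) (hA' : c'.Ax w z ρ) (hy : 0 ≤ y) (hye : w z * y + e ≤ 1)
    (hz : c.ZR w z y e he h1 Z c') (i : Fin r) {X0 : QS S} (hX' : c'.q 0 = cQ Z e he h1 X0) :
    h (dg X0 e) (c.xi i ⊔ c.K y) = e := by
  have h2 := zoom_time hA hy hye hz i (hA.bx.xi y hy (by linarith) i)
  have hZ : Z = (hA.bx.bdd y).toInf.1 := funext hz.base
  subst hZ
  have hK : cl (hA.bx.bdd y).toInf = c.K y := (io_eq _).symm
  rw [hX', cQ_dg _ _ _ _ _ le_rfl, mul_one, h_chgL_inf, hK, div_eq_iff he.ne', one_mul] at h2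
  exact h2

end

end Pool.Agent.Helper47.THA
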