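import Pool.Agent.Helper47.THA.Zfb
import Pool.Agent.Helper46.THA.Uniq

/-! [ZFU] for THEOREM A: the changed box coordinate, rescaled; flatness. -/

set_option autoImplicit false
set_option linter.unusedVariables false

namespace Pool.Agent.Helper47.THA

open Finset Filter Topology Pool.Agent.Helper69.RK Pool.Agent.Helper31.EC Pool.Agent.Helper31.EC.Sp
open Pool.Agent.Helper31.EC.QS Pool.Agent.Helper57.TA Pool.Agent.Helper13.AM Pool.Agent.Helper57.THA
open Pool.Agent.Helper79.HLD Pool.Agent.Helper21.DO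
open Pool.Agent.Helper79.LBR (WS part coeff_part)
open Pool.Agent.Helper46.THA (Ph_supported Ph_PK eval_Ph h0_rename h0_sub emb)

noncomputable section

section alg

variable {β κ : Type} [Fintype β] [Fintype κ]

open Classical in
/-- the horizontal part of a polynomial -/
theorem coeff_rename_h0 {S : Sp} (P : MvPolynomial (β ⊕ κ) (QS S)) (m : β ⊕ κ →₀ ℕ) :
    (MvPolynomial.rename Sum.inl (h0 P) : MvPolynomial (β ⊕ κ) (QS S)).coeff m =
      if ∃ l, m (Sum.inr l) ≠ 0 then 0 else P.coeff m := by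
  set Pv := part (fun m : β ⊕ κ →₀ ℕ => ∃ l, m (Sum.inr l) ≠ 0) P with hPv
  set Pb := part (fun m : β ⊕ κ →₀ ℕ => ¬ ∃ l, m (Sum.inr l) ≠ 0) P with hPb
  have e1 : P = Pb + Pv := by
    ext n
    rw [MvPolynomial.coeff_add, hPb, hPv, coeff_part, coeff_part]
    by_cases h : ∃ l, n (Sum.inr l) ≠ 0
    · rw [if_neg (not_not.mpr h), if_pos h, zero_add]
    · rw [if_pos h, if_neg h, add_zero]
  have e2 : h0 Pv = 0 := by
    rw [hPv]
    unfold part h0
    rw [map_sum]
    apply Finset.sum_eq_zero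
    intro n hn
    obtain ⟨l, hl⟩ := (Finset.mem_filter.mp hn).2
    rw [MvPolynomial.aeval_monomial]
    apply mul_eq_zero_of_right
    rw [Finsupp.prod]
    apply Finset.prod_eq_zero (Finsupp.mem_support_iff.mpr hl)
    rw [Sum.elim_inr, zero_pow hl]
  obtain ⟨P', hP'⟩ := MvPolynomial.exists_rename_eq_of_vars_subset_range Pb (Sum.inl : β → β ⊕ κ) Sum.inl_injective
    (by
      intro a ha
      rw [Finset.mem_coe, MvPolynomial.mem_vars_iff_mem_support] at ha
      obtain ⟨n, hn, hna⟩ := ha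
      rw [MvPolynomial.mem_support_iff, hPb, coeff_part] at hn
      rcases a with a | l
      · exact ⟨a, rfl⟩
      · exfalso
        apply hn
        rw [if_neg]
        exact not_not.mpr ⟨l, Finsupp.mem_support_iff.mp hna⟩)
  have e3 : h0 P = P' := by
    rw [e1]
    unfold h0 at e2 ⊢
    rw [map_add, e2, add_zero, ← hP', MvPolynomial.aeval_rename]
    have e4 : ((Sum.elim MvPolynomial.X fun _ => 0 : β ⊕ κ → MvPolynomial β (QS S)) ∘ Sum.inl) =
      MvPolynomial.X := rfl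
    rw [e4, MvPolynomial.aeval_X_left]
    rfl
  rw [e3, hP', hPb, coeff_part]
  by_cases h : ∃ l, m (Sum.inr l) ≠ 0
  · rw [if_neg (not_not.mpr h), if_pos h]
  · rw [if_pos h, if_neg h]

end alg

variable {S : Sp} {d N r : ℕ} {c : CD S d N r} {w : Fin N → ℝ} {z : Fin N} {ρ : ℝ} {H : HH S d N}

theorem h0_PK {B : S.L} {P : MvPolynomial (Fin (d + 1) ⊕ Fin N) (QS S)} (hP : P ∈ PK B) : h0 P ∈ PK B := by
  unfold h0
  apply sbs_PK hP
  rintro (a | l)
  · exact X_mem _ _
  · exact (PK B).zero_mem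

/-- the changed box coordinate in unit coordinates -/
theorem gh_resc (hA : c.Ax w z ρ) (hH : Tri w H) {y : ℝ} (hy : 0 ≤ y) (hy1 : w z * y ≤ 1) {l : Fin N}
    {J : MvPolynomial (Fin (d + 1)) (QS S)} (hU : UntF w c H J y l) {X : Fin (d + 1) → QS S} {Y : Fin N → QS S}
    (hX : ∀ a, c.q a - c.q0 y a = sc S y * X a) (hY : ∀ j, c.γ y j = sc S (w j * y) * Y j) :
    ∃ Q : MvPolynomial (Fin (d + 1) ⊕ Fin N) (QS S), (∀ m, dg (Q.coeff m) 1 ≤ c.K y) ∧
      (∀ m, Q.coeff m ≠ 0 → ∀ l', m (Sum.inr l') ≠ 0 → w l' < w l) ∧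
      gh c H y l = sc S (w l * y) * (Y l + MvPolynomial.eval (Sum.elim X Y) Q) := by
  classical
  have hle : w l * y ≤ 1 := (mul_le_mul_of_nonneg_right (hA.wz l) hy).trans hy1
  obtain ⟨V, hV⟩ : ∃ V, V = Ph c H y l - MvPolynomial.rename Sum.inl (h0 (Ph c H y l)) := ⟨_, rfl⟩
  have hVc : ∀ m, V.coeff m = if ∃ l, m (Sum.inr l) ≠ 0 then (Ph c H y l).coeff m else 0 := by
    intro m
    rw [hV, MvPolynomial.coeff_sub, coeff_rename_h0]
    split_ifs
    · rw [sub_zero]
    · rw [sub_self]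
  have hVw : WS (Sum.elim (fun _ : Fin (d + 1) => (1 : ℝ)) w) y (w l * y) V := by
    intro m
    rw [hVc]
    split_ifs with h
    · have h2 := hU.1 m h
      have e1 : (w l - wN w m) * y = w l * y - wgt (Sum.elim (fun _ : Fin (d + 1) => (1 : ℝ)) w) m * y := by
        unfold wN
        ring
      rw [← e1]
      exact h2
    · exact Ideal.zero_mem _
  have hwt : ∀ a, 0 ≤ Sum.elim (fun _ : Fin (d + 1) => (1 : ℝ)) w a := by
    rintro (a | a)
    · exact zero_le_one
    · exact (hA.w0 a).le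
  obtain ⟨Q, h1, h2, h3, h4⟩ := exists_resc hwt hy (mul_nonneg (hA.w0 l).le hy) hle hVw
  refine ⟨Q, fun m => ?_, fun m hm l' hl' => ?_, ?_⟩
  · refine (h2 m).trans ?_
    rw [hVc]
    split_ifs
    · exact Ph_PK hA hH m
    · exact (Kn S 1 le_rfl _).zero_mem
  · have h5 : V.coeff m ≠ 0 := fun h => hm (h3 m h)
    rw [hVc] at h5
    split_ifs at h5 with h6
    · have h7 := MvPolynomial.mem_supported.mp (Ph_supported (j := l) (s := y) hA hH)
      have h8 : Sum.inr l' ∈ (Ph c H y l).vars := by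
        rw [MvPolynomial.mem_vars_iff_mem_support]
        exact ⟨m, MvPolynomial.mem_support_iff.mpr h5, Finsupp.mem_support_iff.mpr hl'⟩
      obtain ⟨a, ha⟩ := h7 (Finset.mem_coe.mpr h8)
      rcases a with a | a
      · exact absurd ha Sum.inl_ne_inr
      · have e2 : a.1 = l' := Sum.inr_injective ha
        rw [← e2]
        exact a.2
    · exact absurd rfl h5
  · have e1 : (fun a => sc S (Sum.elim (fun _ : Fin (d + 1) => (1 : ℝ)) w a * y) * Sum.elim X Y a) =
        Sum.elim (dq c y) (c.γ y) := by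
      funext a
      rcases a with a | a
      · show sc S (1 * y) * X a = c.q a - c.q0 y a
        rw [one_mul, hX]
      · show sc S (w a * y) * Y a = c.γ y a
        rw [hY]
    have h5 := h4 (Sum.elim X Y)
    rw [e1, hV, map_sub, eval_Ph hA hy hy1, MvPolynomial.eval_rename] at h5
    have e2 : (Sum.elim (dq c y) (c.γ y) ∘ Sum.inl) = dq c y := rfl
    rw [e2] at h5
    rw [mul_add, ← h5, ← hY]
    unfold gh
    ring

variable {e : ℝ} {he : 0 < e} {h1 : e ≤ 1}

/-- FLATNESS of the changed box coordinate in unit coordinates -/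
theorem flat_resc (hA : c.Ax w z ρ) (hH : Tri w H) {y : ℝ} (hy : 0 ≤ y) (hy1 : w z * y ≤ 1) {l : Fin N} {i : Fin r}
    {κ : ℝ} (hκ1 : κ ≤ 1) (hyκ : w z * y ≤ κ) {k : ℕ} {f : Fin (k + 1) → QS S} (hf : ∀ a : Fin k, dg (f a.succ) 1 ≤ c.b i)
    (hf0 : dg (f 0) 1 ≤ c.xi i) (hfl : c.cR H l - pe f (c.q 0) ∈ Id S κ) {X : Fin (d + 1) → QS S}
    (hX : ∀ a, c.q a - c.q0 y a = sc S y * X a) (he : 0 < e) (h1 : e ≤ 1) (hr : h (dg (X 0) e) (c.xi i ⊔ c.K y) = e)
    {G : QS S} (hG : gh c H y l = sc S (w l * y) * G) :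
    ∃ (n : ℕ) (g : Fin (n + 1) → QS S), (∀ a : Fin n, dg (g a.succ) 1 ≤ c.b i ⊔ c.K y) ∧
      dg (g 0) 1 ≤ c.xi i ⊔ c.K y ∧ G - pe g (X 0) ∈ Id S (κ - w l * y) := by
  classical
  have hwl : w l * y ≤ w z * y := mul_le_mul_of_nonneg_right (hA.wz l) hy
  have hle : w l * y ≤ 1 := hwl.trans hy1
  have hwy : 0 ≤ w l * y := mul_nonneg (hA.w0 l).le hy
  have hbX : c.b i ⊔ c.K y ≤ c.xi i ⊔ c.K y := sup_le_sup_right le_sup_left _
  have hq0 : ∀ a, dg (c.q0 y a) 1 ≤ c.b i ⊔ c.K y := fun a => (q0_le hA.bx y a).trans le_sup_right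
  have hua : ∀ a, dg (c.u i a) 1 ≤ c.b i ⊔ c.K y := fun a => (u_le hA.ln i a).trans le_sup_left
  have haa : ∀ a, dg (c.a i a) 1 ≤ c.b i ⊔ c.K y := fun a => (a_le hA.ln i a).trans le_sup_left
  have hsc : dg (sc S y) 1 ≤ c.b i ⊔ c.K y := by
    rw [dg_sc]
    exact bot_le
  -- the polynomials in the unit height
  set line : Fin (d + 1) → Polynomial (QS S) := fun a =>
    Polynomial.C (c.a i a + c.q0 y 0 * c.u i a - c.q0 y a) + Polynomial.C (sc S y * c.u i a) * Polynomial.X with hline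
  set tp : Polynomial (QS S) := Polynomial.C (c.q0 y 0) + Polynomial.C (sc S y) * Polynomial.X with htp
  have htp1 : tp.eval (X 0) = c.q 0 := by
    rw [htp, Polynomial.eval_add, Polynomial.eval_mul, Polynomial.eval_C, Polynomial.eval_C, Polynomial.eval_X, ← hX]
    ring
  have hline1 : (fun a => (line a).eval (X 0)) = dq c y := by
    funext a
    rw [hline]
    show (Polynomial.C _ + Polynomial.C _ * Polynomial.X : Polynomial (QS S)).eval (X 0) = c.q a - c.q0 y a
    rw [Polynomial.eval_add, Polynomial.eval_mul, Polynomial.eval_C, Polynomial.eval_C, Polynomial.eval_X,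
      hA.ln.line i a]
    have h2 : c.q 0 = c.q0 y 0 + sc S y * X 0 := by
      rw [← hX]
      ring
    rw [h2]
    ring
  have hlk : ∀ a, line a ∈ PK1 (c.b i ⊔ c.K y) := by
    intro a
    apply (PK1 _).add_mem (PK1_C _) ((PK1 _).mul_mem (PK1_C _) (PK1_X _))
    · exact (Kn S 1 le_rfl _).sub_mem ((Kn S 1 le_rfl _).add_mem (haa a) ((Kn S 1 le_rfl _).mul_mem (hq0 0) (hua a)))
        (hq0 a)
    · exact (Kn S 1 le_rfl _).mul_mem hsc (hua a)
  have htk : tp ∈ PK1 (c.b i ⊔ c.K y) := (PK1 _).add_mem (PK1_C (hq0 0)) ((PK1 _).mul_mem (PK1_C hsc) (PK1_X _))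
  set f0 : Fin (k + 1) → QS S := Fin.cons 0 fun a => f a.succ with hf0d
  have hf0k : ∀ a, dg (f0 a) 1 ≤ c.b i ⊔ c.K y := by
    intro a
    refine Fin.cases ?_ (fun a => ?_) a
    · rw [hf0d, Fin.cons_zero]
      exact (Kn S 1 le_rfl _).zero_mem
    · rw [hf0d, Fin.cons_succ]
      exact (hf a).trans le_sup_left
  have hfe : ∀ x, pe f x = f 0 + pe f0 x := by
    intro x
    unfold pe
    rw [Fin.sum_univ_succ, Fin.sum_univ_succ]
    simp [hf0d]
  set G1 : Polynomial (QS S) := (cP f0).comp tp - MvPolynomial.aeval line (h0 (Ph c H y l)) with hG1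
  have hG1k : G1 ∈ PK1 (c.b i ⊔ c.K y) := by
    apply (PK1 _).sub_mem (comp_PK1 (cP_PK1 hf0k) htk)
    exact PK1_aeval (PK_mono le_sup_right (h0_PK (Ph_PK hA hH))) _ hlk
  set GG : Polynomial (QS S) := Polynomial.C (f 0) + G1 with hGG
  have hGGk : GG ∈ PK1 (c.xi i ⊔ c.K y) := by
    apply (PK1 _).add_mem (PK1_C (hf0.trans le_sup_left))
    exact fun n => (hG1k n).trans hbX
  have hGGe : GG.eval (X 0) = pe f (c.q 0) - MvPolynomial.eval (dq c y) (h0 (Ph c H y l)) := by
    rw [hGG, hG1, Polynomial.eval_add, Polynomial.eval_C, Polynomial.eval_sub, Polynomial.eval_comp, cP_eval, htp1,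
      eval_aeval, hline1, hfe]
    ring
  have hd : gh c H y l - GG.eval (X 0) ∈ Id S κ := by
    rw [hGGe]
    have h2 : gh c H y l - (pe f (c.q 0) - MvPolynomial.eval (dq c y) (h0 (Ph c H y l))) =
        c.cR H l - pe f (c.q 0) := by
      unfold gh
      ring
    rw [h2]
    exact hfl
  have hgm : gh c H y l ∈ Id S (w l * y) := by
    rw [hG]
    have h2 := sc_mul_mem (S := S) (r := 0) (f := G) hwy (mem_Id_nonpos le_rfl)
    rwa [add_zero] at h2
  have hGm : GG.eval (X 0) ∈ Id S (w l * y) := by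
    have h2 := (Id S (w l * y)).sub_mem hgm (Id_mono (hwl.trans hyκ) hd)
    rwa [sub_sub_cancel] at h2
  -- the coefficients are divisible
  have hco : ∀ a : Fin (GG.natDegree + 1), GG.coeff (a : ℕ) ∈ Id S (w l * y) := by
    intro a
    have h2 : h (dg (X 0) e) (vd (fun a : Fin (GG.natDegree + 1) => GG.coeff (a : ℕ)) 1) = e := by
      refine le_antisymm ((h_le_H _ _).trans (H_dg_le _ he.le)) (hr.symm.le.trans (h_anti ?_))
      rw [vd_le]
      intro a
      exact hGGk a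
    exact top_zero _ (X 0) he h1 h2 hle (by rw [pe_coeff]; exact hGm) a
  choose g hg hgk using fun a => exists_div' hwy hle (hco a)
  refine ⟨GG.natDegree, g, fun a => ?_, ?_, ?_⟩
  · refine (hgk _).trans ?_
    have h2 : ∀ n : ℕ, GG.coeff (n + 1) = G1.coeff (n + 1) := by
      intro n
      rw [hGG, Polynomial.coeff_add, Polynomial.coeff_C, if_neg (Nat.succ_ne_zero _), zero_add]
    rw [Fin.val_succ, h2]
    exact hG1k _
  · exact (hgk _).trans (hGGk _)
  · apply mem_of_sc_mul hwy hκ1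
    rw [mul_sub, ← hG]
    have h2 : sc S (w l * y) * pe g (X 0) = GG.eval (X 0) := by
      rw [← pe_coeff]
      unfold pe
      rw [Finset.mul_sum]
      apply Finset.sum_congr rfl
      intro a _
      rw [← mul_assoc, ← hg]
    rw [h2]
    exact hd

end

end Pool.Agent.Helper47.THA
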