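import Pool.Agent.Helper47.THA.Zfc

/-! [ZFU] for THEOREM A: the untilted polynomials in unit coordinates. -/

set_option autoImplicit false
set_option linter.unusedVariables false

namespace Pool.Agent.Helper47.THA

open Finset Filter Topology Pool.Agent.Helper69.RK Pool.Agent.Helper31.EC Pool.Agent.Helper31.EC.Sp
open Pool.Agent.Helper31.EC.QS Pool.Agent.Helper57.TA Pool.Agent.Helper13.AM Pool.Agent.Helper57.THA
open Pool.Agent.Helper79.HLD Pool.Agent.Helper21.DO
open Pool.Agent.Helper79.WLK (sh sh_eval map_sh sh_PK)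
open Pool.Agent.Helper79.LBR (WS part coeff_part)
open Pool.Agent.Helper46.THA (Ph_supported Ph_PK eval_Ph h0_rename h0_sub emb)

noncomputable section

variable {S : Sp} {d N r : ℕ} {c : CD S d N r} {w : Fin N → ℝ} {z : Fin N} {ρ : ℝ} {H : HH S d N}

theorem sh_coeff_zero {β : Type} (x : β → QS S) (P : MvPolynomial β (QS S)) :
    (sh x P).coeff 0 = MvPolynomial.eval x P := by
  rw [Pool.Agent.Helper57.TA.coeff_zero_eval, sh_eval]
  congr 2
  funext a
  rw [add_zero]

theorem aeval_aeval {A : Type*} [CommRing A] {α β γ : Type*} (φ : α → MvPolynomial β A) (ψ : β → MvPolynomial γ A)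
    (P : MvPolynomial α A) : MvPolynomial.aeval ψ (MvPolynomial.aeval φ P) =
      MvPolynomial.aeval (fun a => MvPolynomial.aeval ψ (φ a)) P := by
  induction P using MvPolynomial.induction_on with
  | C a => rw [MvPolynomial.aeval_C, MvPolynomial.algebraMap_eq, MvPolynomial.aeval_C, MvPolynomial.aeval_C]
  | add p q hp hq => rw [map_add, map_add, map_add, hp, hq]
  | mul_X p a hp => rw [map_mul, map_mul, map_mul, hp, MvPolynomial.aeval_X, MvPolynomial.aeval_X]

/-- shift of a scaled polynomial -/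
theorem sh_aff {β : Type} (X : β → QS S) (a0 x : β → QS S) (u : QS S) (hx : ∀ a, x a = a0 a + u * X a)
    (P : MvPolynomial β (QS S)) :
    sh X (MvPolynomial.aeval (fun a => MvPolynomial.C (a0 a) + MvPolynomial.C u * MvPolynomial.X a) P) =
      scl u (sh x P) := by
  unfold scl sh
  rw [aeval_aeval, aeval_aeval]
  refine congrArg (fun φ : β → MvPolynomial β (QS S) => MvPolynomial.aeval φ P) (funext fun a => ?_)
  rw [map_add, map_add, map_mul, MvPolynomial.aeval_X, MvPolynomial.aeval_X, MvPolynomial.aeval_C,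
    MvPolynomial.aeval_C, MvPolynomial.aeval_C, MvPolynomial.algebraMap_eq, hx, map_add, map_mul]
  ring

theorem scl_sub {β : Type} (u : QS S) (P Q : MvPolynomial β (QS S)) : scl u (P - Q) = scl u P - scl u Q := by
  unfold scl
  rw [map_sub]

theorem sh_sub' {β : Type} (x : β → QS S) (P Q : MvPolynomial β (QS S)) : sh x (P - Q) = sh x P - sh x Q := by
  unfold sh
  rw [map_sub]

theorem w1_nonneg (n : Fin (d + 1) →₀ ℕ) : 0 ≤ w1 n := wgt_nonneg (fun _ => zero_le_one) n

/-- UNTILTED POLYNOMIALS IN UNIT COORDINATES -/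
theorem unt_resc (hA : c.Ax w z ρ) (hH : Tri w H) {y σ : ℝ} (hy : 0 ≤ y) (hσ : y ≤ σ) (hσ1 : w z * σ ≤ 1) {l : Fin N}
    {J : MvPolynomial (Fin (d + 1)) (QS S)} (hU : UntF w c H J y l) (hE : UntE w c H J σ l)
    {X : Fin (d + 1) → QS S} (hX : ∀ a, c.q a - c.q0 y a = sc S y * X a) {G : QS S}
    (hG : gh c H y l = sc S (w l * y) * G) {J1 : MvPolynomial (Fin (d + 1)) (QS S)}
    (hJ1 : ∀ m, m ≠ 0 → w1 m < w l →
      sc S (w1 m * y) * (J.coeff m - (sh (dq c y) (h0 (Ph c H y l))).coeff m) = sc S (w l * y) * J1.coeff m) :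
    ∃ Θ : MvPolynomial (Fin (d + 1)) (QS S), Θ ∈ PK (c.K σ) ∧
      G - MvPolynomial.eval X Θ ∈ Id S (w l * (σ - y)) ∧
      ∀ n, n ≠ 0 → (sh X Θ).coeff n - J1.coeff n ∈ Id S ((w l - w1 n) * (σ - y)) := by
  classical
  obtain ⟨Ψ, hΨk, hΨe, hΨJ⟩ := hE
  have hσ0 : 0 ≤ σ := hy.trans hσ
  have hwl := hA.w0 l
  have hwσ : w l * σ ≤ 1 := (mul_le_mul_of_nonneg_right (hA.wz l) hσ0).trans hσ1
  have hwyσ : w l * y ≤ w l * σ := mul_le_mul_of_nonneg_left hσ hwl.le
  have hwy : 0 ≤ w l * y := mul_nonneg hwl.le hy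
  have hle : w l * y ≤ 1 := hwyσ.trans hwσ
  have hKK : c.K y ≤ c.K σ := hA.bx.mono y σ hy hσ hσ1
  obtain ⟨P0, hP0⟩ : ∃ P0, P0 = h0 (Ph c H y l) := ⟨_, rfl⟩
  rw [← hP0] at hJ1
  have hP0k : P0 ∈ PK (c.K y) := by
    rw [hP0]
    exact h0_PK (Ph_PK hA hH)
  have hX2 : ∀ a, dq c σ a = c.q0 y a - c.q0 σ a + sc S y * X a := by
    intro a
    rw [← hX]
    show c.q a - c.q0 σ a = _
    ring
  set Θ0 : MvPolynomial (Fin (d + 1)) (QS S) :=
    MvPolynomial.aeval (fun a => MvPolynomial.C (c.q0 y a - c.q0 σ a) + MvPolynomial.C (sc S y) * MvPolynomial.X a) Ψ -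
      scl (sc S y) P0 with hΘ0
  have hsck : ∀ B : S.L, dg (sc S y) 1 ≤ B := fun B => by
    rw [dg_sc]
    exact bot_le
  have hΘ0k : Θ0 ∈ PK (c.K σ) := by
    apply (PK _).sub_mem
    · apply sbs_PK hΨk
      intro a
      refine (PK _).add_mem (C_mem ?_) ((PK _).mul_mem (C_mem (hsck _)) (X_mem _ _))
      exact (Kn S 1 le_rfl _).sub_mem ((q0_le hA.bx y a).trans hKK) (q0_le hA.bx σ a)
    · unfold scl
      apply sbs_PK (PK_mono hKK hP0k)
      intro a
      exact (PK _).mul_mem (C_mem (hsck _)) (X_mem _ _)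
  have hsh : sh X Θ0 = scl (sc S y) (sh (dq c σ) Ψ - sh (dq c y) P0) := by
    have h2 := sh_aff X (fun a => c.q0 y a - c.q0 σ a) (dq c σ) (sc S y) hX2 Ψ
    have h3 := sh_aff X (fun a => 0) (dq c y) (sc S y) (fun a => by
      rw [zero_add]
      exact hX a) P0
    have h4 : MvPolynomial.aeval (fun a : Fin (d + 1) => MvPolynomial.C (0 : QS S) +
        MvPolynomial.C (sc S y) * MvPolynomial.X a) P0 = scl (sc S y) P0 := by
      unfold scl
      refine congrArg (fun φ : Fin (d + 1) → MvPolynomial (Fin (d + 1)) (QS S) => MvPolynomial.aeval φ P0)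
        (funext fun a => ?_)
      rw [map_zero, zero_add]
    rw [hΘ0, sh_sub', h2, scl_sub, ← h3, h4]
  have hev : MvPolynomial.eval X Θ0 = MvPolynomial.eval (dq c σ) Ψ - MvPolynomial.eval (dq c y) P0 := by
    rw [hΘ0]
    unfold scl
    rw [map_sub, eval_sbs, eval_sbs]
    congr 1
    · congr 2
      funext a
      rw [map_add, map_mul, MvPolynomial.eval_X, MvPolynomial.eval_C, MvPolynomial.eval_C, hX2]
    · congr 2
      funext a
      rw [map_mul, MvPolynomial.eval_X, MvPolynomial.eval_C]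
      exact (hX a).symm
  have hd : gh c H y l - MvPolynomial.eval X Θ0 ∈ Id S (w l * σ) := by
    have h2 : gh c H y l - MvPolynomial.eval X Θ0 = c.cR H l - MvPolynomial.eval (dq c σ) Ψ := by
      rw [hev, hP0]
      unfold gh
      ring
    rw [h2]
    exact hΨe
  have hgm : gh c H y l ∈ Id S (w l * y) := by
    rw [hG]
    have h2 := sc_mul_mem (S := S) (r := 0) (f := G) hwy (mem_Id_nonpos le_rfl)
    rwa [add_zero] at h2
  have hcf : ∀ n, (sh X Θ0).coeff n =
      sc S (w1 n * y) * ((sh (dq c σ) Ψ).coeff n - (sh (dq c y) P0).coeff n) := by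
    intro n
    rw [hsh, coeff_scl hy, MvPolynomial.coeff_sub]
    rfl
  have hsm : ∀ n, (sh X Θ0).coeff n ∈ Id S (w l * y) := by
    intro n
    by_cases hn : n = 0
    · subst hn
      rw [sh_coeff_zero]
      have h2 := (Id S (w l * y)).sub_mem hgm (Id_mono hwyσ hd)
      rwa [sub_sub_cancel] at h2
    · have hwn := mul_nonneg (w1_nonneg n) hy
      rw [hcf]
      rcases le_total (w1 n) (w l) with h2 | h2
      · have h3 : (sh (dq c σ) Ψ).coeff n - (sh (dq c y) P0).coeff n ∈ Id S ((w l - w1 n) * y) := by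
          have h4 := Id_mono (mul_le_mul_of_nonneg_left hσ (sub_nonneg.mpr h2)) (hΨJ n hn)
          have h5 := hU.2 n hn
          rw [← hP0] at h5
          have h6 := (Id S ((w l - w1 n) * y)).sub_mem h4 h5
          rwa [sub_sub_sub_cancel_right] at h6
        have h4 := sc_mul_mem hwn h3
        refine Id_mono (le_of_eq ?_) h4
        ring
      · have h4 := sc_mul_mem (S := S) (r := 0) hwn
          (f := (sh (dq c σ) Ψ).coeff n - (sh (dq c y) P0).coeff n) (mem_Id_nonpos le_rfl)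
        refine Id_mono ?_ h4
        rw [add_zero]
        exact mul_le_mul_of_nonneg_right h2 hy
  have hsm0 : ∀ n, Θ0.coeff n ∈ Id S (w l * y) := by
    have h2 : Θ0 = sh (fun a => -X a) (sh X Θ0) := by
      rw [sh_sh]
      have h3 : (fun a => X a + -X a) = fun _ => (0 : QS S) := by
        funext a
        ring
      rw [h3, sh_zero]
    intro n
    rw [h2]
    unfold sh at hsm ⊢
    exact coeff_mem_aeval _ hsm _ n
  have hw0 : ∀ m : Fin (d + 1) →₀ ℕ, wgt (fun _ => (0 : ℝ)) m = 0 := by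
    intro m
    unfold wgt
    simp
  obtain ⟨Θ, h2, h3, -, -⟩ := exists_resc (wt := fun _ : Fin (d + 1) => (0 : ℝ)) (fun _ => le_rfl) hy hwy hle
    (P := Θ0) (by
      intro m
      rw [hw0, zero_mul, sub_zero]
      exact hsm0 m)
  have hΘc : ∀ m, Θ0.coeff m = sc S (w l * y) * Θ.coeff m := by
    intro m
    have h4 := h2 m
    rw [hw0, zero_mul, sc_zero, one_mul] at h4
    exact h4
  have hΘe : Θ0 = MvPolynomial.C (sc S (w l * y)) * Θ := by
    ext m
    rw [MvPolynomial.coeff_C_mul]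
    exact hΘc m
  refine ⟨Θ, fun m => (h3 m).trans (hΘ0k m), ?_, ?_⟩
  · have h4 : sc S (w l * y) * (G - MvPolynomial.eval X Θ) ∈ Id S (w l * σ) := by
      rw [mul_sub, ← hG]
      have h5 : sc S (w l * y) * MvPolynomial.eval X Θ = MvPolynomial.eval X Θ0 := by
        rw [hΘe, map_mul, MvPolynomial.eval_C]
      rw [h5]
      exact hd
    have h5 := mem_of_sc_mul hwy hwσ h4
    refine Id_mono (le_of_eq ?_) h5
    ring
  · intro n hn
    rcases le_or_gt (w l) (w1 n) with h4 | h4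
    · apply mem_Id_nonpos
      exact mul_nonpos_of_nonpos_of_nonneg (sub_nonpos.mpr h4) (sub_nonneg.mpr hσ)
    · have hwn := mul_nonneg (w1_nonneg n) hy
      have hwnσ : w1 n * y ≤ w1 n * σ := mul_le_mul_of_nonneg_left hσ (w1_nonneg n)
      have h5 : sc S (w l * y) * ((sh X Θ).coeff n - J1.coeff n) ∈ Id S (w1 n * y + (w l - w1 n) * σ) := by
        have h6 : sc S (w l * y) * (sh X Θ).coeff n = (sh X Θ0).coeff n := by
          rw [hΘe]
          unfold sh
          rw [map_mul, MvPolynomial.aeval_C, MvPolynomial.algebraMap_eq, MvPolynomial.coeff_C_mul]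
        rw [mul_sub, h6, ← hJ1 n hn h4, hcf, ← mul_sub]
        have h7 : (sh (dq c σ) Ψ).coeff n - (sh (dq c y) P0).coeff n - (J.coeff n - (sh (dq c y) P0).coeff n) =
            (sh (dq c σ) Ψ).coeff n - J.coeff n := by ring
        rw [h7]
        exact sc_mul_mem hwn (hΨJ n hn)
      have h6 : w1 n * y + (w l - w1 n) * σ ≤ 1 := by
        refine le_trans ?_ hwσ
        linarith
      have h7 := mem_of_sc_mul hwy h6 h5
      refine Id_mono (le_of_eq ?_) h7
      ring

/-- the new jets, before rounding -/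
theorem exists_J1 (hA : c.Ax w z ρ) (hH : Tri w H) {y : ℝ} (hy : 0 ≤ y) (hy1 : w z * y ≤ 1) {l : Fin N}
    {J : MvPolynomial (Fin (d + 1)) (QS S)} (hJ : J ∈ PK c.P) (hU : UntF w c H J y l) :
    ∃ J1 : MvPolynomial (Fin (d + 1)) (QS S), (∀ m, m ≠ 0 → w1 m < w l →
      sc S (w1 m * y) * (J.coeff m - (sh (dq c y) (h0 (Ph c H y l))).coeff m) = sc S (w l * y) * J1.coeff m) ∧
      J1 ∈ PK (c.P ⊔ c.K y) ∧ ∀ m, J1.coeff m ≠ 0 → m ≠ 0 ∧ w1 m < w l := by
  classical
  have hwl := hA.w0 l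
  have hle : w l * y ≤ 1 := (mul_le_mul_of_nonneg_right (hA.wz l) hy).trans hy1
  obtain ⟨D, hD⟩ : ∃ D, D = part (fun m : Fin (d + 1) →₀ ℕ => m ≠ 0 ∧ w1 m < w l)
    (J - sh (dq c y) (h0 (Ph c H y l))) := ⟨_, rfl⟩
  have hDc : ∀ m, D.coeff m = if m ≠ 0 ∧ w1 m < w l then J.coeff m - (sh (dq c y) (h0 (Ph c H y l))).coeff m
      else 0 := by
    intro m
    rw [hD, coeff_part, MvPolynomial.coeff_sub]
  have hDw : WS (fun _ : Fin (d + 1) => (1 : ℝ)) y (w l * y) D := by
    intro m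
    rw [hDc]
    split_ifs with h2
    · have h3 := (Ideal.neg_mem_iff _).mpr (hU.2 m h2.1)
      rw [neg_sub] at h3
      refine Id_mono (le_of_eq ?_) h3
      show w l * y - w1 m * y = _
      ring
    · exact Ideal.zero_mem _
  obtain ⟨J1, h1, h2, h3, -⟩ := exists_resc (fun _ => zero_le_one) hy (mul_nonneg hwl.le hy) hle hDw
  refine ⟨J1, fun m hm hm' => ?_, fun m => ?_, fun m hm => ?_⟩
  · have h4 := h1 m
    rw [hDc, if_pos ⟨hm, hm'⟩] at h4
    exact h4
  · refine (h2 m).trans ?_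
    rw [hDc]
    split_ifs
    · apply (Kn S 1 le_rfl _).sub_mem ((hJ m).trans le_sup_left)
      have h4 : sh (dq c y) (h0 (Ph c H y l)) ∈ PK (c.P ⊔ c.K y) := by
        apply sh_PK _ (PK_mono le_sup_right (h0_PK (Ph_PK hA hH)))
        intro a
        exact (Kn S 1 le_rfl _).sub_mem ((dg_le_vd c.q 1 a).trans le_sup_left) ((q0_le hA.bx y a).trans le_sup_right)
      exact h4 m
    · exact (Kn S 1 le_rfl _).zero_mem
  · by_contra h4
    apply hm
    apply h3
    rw [hDc, if_neg h4]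

end

end Pool.Agent.Helper47.THA
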